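import Pool.Agent.BEN.StmtsB
import Pool.Agent.Helper93_BEF.Fin
import Pool.Agent.Helper70_BE01.All
import Pool.Agent.Helper27_BEN.QPX
import Pool.Agent.Helper6_BEN.REX
import Pool.Agent.Helper30_BEN.BAX
import Pool.Agent.Helper77_BEN.STX
import Pool.Agent.Helper19_BEN.APN
import Pool.Agent.Helper79_BEN.NEX
import Pool.Agent.Helper67_BEN.NEO
import Pool.Agent.Helper11_BEN.LDN
import Pool.Agent.Helper60_BEN.LEN
import Pool.Agent.Helper23_BEN.ASN
import Pool.Agent.Helper22_BEN.LIX
import Pool.Agent.Helper95_BEN.POJ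
import Pool.Agent.Helper89_BEN.FXJ
import Pool.Agent.Helper69_BEN.NLJ
import Pool.Agent.Helper81_BEN.TMN
import Pool.Agent.Helper21_BEN.QEF
import Pool.Agent.Helper4_BEN.HLD
import Pool.Agent.Helper79_BEN.INQ
import Pool.Agent.Helper58_BEN.PRL
import Pool.Agent.Helper85_BEN.JMU
import Pool.Agent.Helper67_BEN.CUM
import Pool.Agent.Helper40_BEN.CUA
import Pool.Agent.Helper14_BEN.JLF
import Pool.Agent.Helper12_BEN.JST
import Pool.Agent.Helper96_BEN.SOL
import Pool.Agent.Helper3_BEN.SBU
import Pool.Agent.Helper89_BEN.LVU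
import Pool.Agent.Helper9_BEN.STL
import Pool.Agent.Helper17_BEN.LPB
import Pool.Agent.Helper17_BEN.SPQ
import Pool.Agent.Helper95_BEN.RPQ
import Pool.Agent.Helper61_BEN.WXC
import Pool.Agent.Helper35_BEN.BTS
import Pool.Agent.Helper15_BEN.SLX
import Pool.Agent.Helper52_BEN.SLO
import Pool.Agent.Helper86_BEN.FNE
import Pool.Agent.Helper24_BEN.MAI
import Pool.Agent.Helper39_BEN.UNI
import Pool.Agent.Helper23_BEN.FNN
import Pool.Agent.Helper98_BEN.FNG

/-!
Squad BEN: assembly of all rows. `fng` is the final state theorem in every dimension, `uni` its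
uniform version.
-/

set_option autoImplicit false

namespace Pool.Agent.BEN.All

open Pool.Agent Pool.Agent.BEN

theorem gpr : BEF.GprStmt := BEF.H5.gpr
theorem gli : BEF.GliStmt := BEF.H24.gli
theorem gdv : BEF.GdvStmt := BEF.H52.gdv
theorem cha : BEF.ChaStmt := BEF.H43.cha
theorem gbd : BEF.GbdStmt := BEF.H5.gbd
theorem dfl : BEF.DflStmt := BEF.Fin.dfl
theorem gpw : BEF.GpwStmt := BEF.Fin.gpw
theorem trz : BEF.TrzStmt := BEF.Fin.trz
theorem frm : BEF.FrmStmt := BEF.H62.frm
theorem lia : BE01.LiaStmt := Helper70BE01All.lia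
theorem lib : BE01.LibStmt := Helper70BE01All.lib
theorem fre : BE01.FreStmt := BE01.H69.fre

theorem qpx : QpxStmt := H27.qpx
theorem rex : RexStmt := H6.rex
theorem bax : BaxStmt := H30.bax gli gdv dfl qpx gpw
theorem stx : StxStmt := H77.stx gpr gli gdv dfl gpw qpx rex
theorem apn : ApnStmt := H19.apn gli bax stx
theorem nex : NexStmt := H79.nex
theorem neo : NeoStmt := H67.neo
theorem ldn : LdnStmt := H11.ldn gli gdv dfl gbd qpx
theorem len : LenStmt := H60.len gli gdv dfl gbd qpx
theorem asn : AsnStmt := H23.asn gli gdv dfl cha gbd apn trz ldn len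
theorem lix : LixStmt := H22.lix lia lib
theorem poj : PojStmt := H95.poj
theorem fxj : FxjStmt := H89.fxj
theorem nlj : NljStmt := H69.nlj poj fxj
theorem tmn : TmnStmt := H81.tmn lix nlj
theorem qef : QefStmt := H21.qef
theorem hld : HldStmt := H4.hld
theorem inq : InqStmt := H79.inq
theorem prl : PrlStmt := H58.prl
theorem jmu : JmuStmt := H85.jmu qef hld
theorem cum : CumStmt := H67.cum qef hld inq prl
theorem cua : CuaStmt := H40.cua
theorem jlf : JlfStmt := H14.jlf qef inq
theorem jst : JstStmt := H12.jst qef inq jmu cum cua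
theorem sol : SolStmt := H96.sol lia lix qef inq jlf
theorem sbu : SbuStmt := H3.sbu
theorem lvu : LvuStmt := H89.lvu qef sbu
theorem stl : StlStmt := H9.stl
theorem lpb : LpbStmt := H17.lpb
theorem spq : SpqStmt := H17.spq qef lvu stl lpb
theorem rpq : RpqStmt := H95.rpq qef sbu
theorem bts : BtsStmt := H35.bts qef
theorem slx : SlxStmt := H15.slx bts frm fre
theorem slo : SloStmt := H52.slo bts fre
theorem fne : FneStmt := H86.fne
theorem mai : MaiStmt := H24.mai asn tmn jst sol fne

theorem wxc : WxcStmt := H61.wxc qef spq rpq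
theorem uni : UniStmt := H39.uni wxc mai slo neo
theorem fnn : FnnStmt := H23.fnn wxc mai slx nex
theorem fng : FngStmt := H98.fng fnn

end Pool.Agent.BEN.All
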